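import Pool.Agent.Q224.Tri.F

/-!
# MP_362855_co : lattice polytopes with `h* = 1 + a t^k + b t^(2k)`

For `k ≥ 2` and `b ≥ 2` we have `a + b + 1 ≤ (4b + 4)k`.
-/

namespace Pool.Agent.Results.MP_362855_co.VolumeBound

open scoped Pointwise

/-- The number of the lattice points of the dilate `m • P`. -/
noncomputable def latticeCount {d : ℕ} (P : Set (Fin d → ℝ)) (m : ℕ) : ℕ :=
  Nat.card {z : Fin d → ℤ // (fun j => (z j : ℝ)) ∈ (m : ℝ) • P}

/-- `P` is a lattice polytope in `ℝ^d` of dimension `d`: the convex hull of finitely many points with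
integer coordinates, whose affine span is the whole space. -/
def IsLatticePolytope {d : ℕ} (P : Set (Fin d → ℝ)) : Prop :=
  (∃ S : Finset (Fin d → ℤ), P = convexHull ℝ ((fun z : Fin d → ℤ => fun j => (z j : ℝ)) '' S)) ∧
    affineSpan ℝ P = ⊤

/-- `h` is the `h*`-polynomial of the `d`-dimensional polytope `P ⊆ ℝ^d`:
`∑ |mP ∩ ℤ^d| t^m = h(t) / (1 - t)^(d+1)`. -/
def IsHStar {d : ℕ} (P : Set (Fin d → ℝ)) (h : Polynomial ℤ) : Prop :=
  (PowerSeries.mk fun m => ((latticeCount P m : ℕ) : ℤ)) * (1 - PowerSeries.X) ^ (d + 1)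
    = (h : PowerSeries ℤ)

open Pool.Agent.Q224.Tri

theorem coeff_one_pow (n : ℕ) :
    PowerSeries.coeff 1 ((1 - PowerSeries.X : PowerSeries ℤ) ^ n) = -(n : ℤ) ∧
      PowerSeries.coeff 0 ((1 - PowerSeries.X : PowerSeries ℤ) ^ n) = 1 := by
  induction n with
  | zero => simp [PowerSeries.coeff_one]
  | succ n ih =>
    obtain ⟨h1, h0⟩ := ih
    rw [pow_succ]
    have ha : Finset.HasAntidiagonal.antidiagonal (1 : ℕ) = {(0, 1), (1, 0)} := by rfl
    constructor
    · rw [PowerSeries.coeff_mul, ha, Finset.sum_pair (by simp), h0, h1]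
      simp [PowerSeries.coeff_one, PowerSeries.coeff_X]
    · rw [PowerSeries.coeff_zero_eq_constantCoeff] at h0 ⊢
      simp

theorem mem_hull {ι : Type} [Fintype ι] {d : ℕ} (w : ι → (Fin d → ℝ)) (x : Fin d → ℝ) :
    x ∈ convexHull ℝ (Set.range w) ↔
      ∃ l : ι → ℝ, (∀ i, 0 ≤ l i) ∧ ∑ i, l i = 1 ∧ (fun j => ∑ i, l i * w i j) = x := by
  classical
  constructor
  · intro hx
    have hc : Convex ℝ {x : Fin d → ℝ | ∃ l : ι → ℝ, (∀ i, 0 ≤ l i) ∧ ∑ i, l i = 1 ∧
        (fun j => ∑ i, l i * w i j) = x} := by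
      rintro _ ⟨l, hl, hls, rfl⟩ _ ⟨l', hl', hls', rfl⟩ s t hs ht hst
      refine ⟨fun i => s * l i + t * l' i, fun i => ?_, ?_, ?_⟩
      · have := hl i; have := hl' i; positivity
      · rw [Finset.sum_add_distrib, ← Finset.mul_sum, ← Finset.mul_sum, hls, hls', mul_one, mul_one,
          hst]
      · funext j
        simp only [Pi.add_apply, Pi.smul_apply, smul_eq_mul, Finset.mul_sum, add_mul,
          Finset.sum_add_distrib, mul_assoc]
    refine convexHull_min ?_ hc hx
    rintro _ ⟨i, rfl⟩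
    refine ⟨fun i' => if i' = i then 1 else 0, fun i' => ?_, ?_, ?_⟩
    · show (0 : ℝ) ≤ if i' = i then 1 else 0
      split_ifs <;> norm_num
    · simp
    · funext j; simp
  · rintro ⟨l, hl, hls, rfl⟩
    have e : (fun j => ∑ i, l i * w i j) = ∑ i, l i • w i := by
      funext j; simp
    rw [e]
    exact (convex_convexHull ℝ _).sum_mem (fun i _ => hl i) hls
      (fun i _ => subset_convexHull ℝ _ ⟨i, rfl⟩)

theorem mem_smul_hull {ι : Type} [Fintype ι] [Nonempty ι] {d : ℕ} (v : ι → (Fin d → ℤ)) (m : ℕ)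
    (x : Fin d → ℝ) :
    x ∈ (m : ℝ) • convexHull ℝ (Set.range fun i => fun j => ((v i j : ℤ) : ℝ)) ↔
      ∃ l : ι → ℝ, (∀ i, 0 ≤ l i) ∧ ∑ i, l i = m ∧ tau v l = x := by
  classical
  rw [Set.mem_smul_set]
  constructor
  · rintro ⟨y, hy, rfl⟩
    obtain ⟨l, hl, hls, rfl⟩ := (mem_hull _ _).1 hy
    refine ⟨fun i => m * l i, fun i => ?_, ?_, ?_⟩
    · have := hl i; positivity
    · rw [← Finset.mul_sum, hls, mul_one]
    · funext j
      simp only [tau, Pi.smul_apply, smul_eq_mul, Finset.mul_sum, mul_assoc]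
  · rintro ⟨l, hl, hls, rfl⟩
    rcases Nat.eq_zero_or_pos m with rfl | hm
    · have h0 : ∀ i, l i = 0 := by
        have : ∑ i, l i = 0 := by rw [hls]; simp
        rw [Finset.sum_eq_zero_iff_of_nonneg (fun i _ => hl i)] at this
        exact fun i => this i (Finset.mem_univ i)
      obtain ⟨i⟩ := ‹Nonempty ι›
      refine ⟨fun j => ((v i j : ℤ) : ℝ), subset_convexHull ℝ _ ⟨i, rfl⟩, ?_⟩
      funext j
      simp [tau, h0]
    · have hm' : (m : ℝ) ≠ 0 := by exact_mod_cast hm.ne'
      refine ⟨fun j => ∑ i, (l i / m) * v i j, (mem_hull _ _).2 ⟨fun i => l i / m, fun i => ?_, ?_, rfl⟩, ?_⟩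
      · have := hl i; positivity
      · rw [← Finset.sum_div, hls, div_self hm']
      · funext j
        simp only [tau, Pi.smul_apply, smul_eq_mul, Finset.mul_sum]
        refine Finset.sum_congr rfl fun i _ => ?_
        field_simp

/-- **Theorem.** Let `k ≥ 2`, `a ≥ 0` and `b ≥ 2`. If a `d`-dimensional lattice polytope has the
`h*`-polynomial `1 + a t^k + b t^(2k)`, then `a + b + 1 ≤ (4b + 4) k`. -/
theorem result (d k a b : ℕ) (hk : 2 ≤ k) (hb : 2 ≤ b) (P : Set (Fin d → ℝ))
    (hP : IsLatticePolytope P)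
    (hh : IsHStar P (1 + Polynomial.C (a : ℤ) * Polynomial.X ^ k
      + Polynomial.C (b : ℤ) * Polynomial.X ^ (2 * k))) :
    a + b + 1 ≤ (4 * b + 4) * k := by
  classical
  obtain ⟨⟨S, hS⟩, hspan⟩ := hP
  have hh' : (PowerSeries.mk fun m => ((latticeCount P m : ℕ) : ℤ)) * (1 - PowerSeries.X) ^ (d + 1)
      = 1 + (a : PowerSeries ℤ) * PowerSeries.X ^ k + (b : PowerSeries ℤ) * PowerSeries.X ^ (2 * k) := by
    rw [hh]
    push_cast
    simp
  -- `P` is nonempty
  have hPne : P.Nonempty := by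
    by_contra hcon
    rw [Set.not_nonempty_iff_eq_empty] at hcon
    rw [hcon, AffineSubspace.span_empty] at hspan
    exact bot_ne_top hspan
  have hSne : S.Nonempty := by
    by_contra hcon
    rw [Finset.not_nonempty_iff_eq_empty] at hcon
    rw [hcon] at hS
    simp at hS
    rw [hS] at hPne
    exact Set.not_nonempty_empty hPne
  -- the number of lattice points
  have hL0 : latticeCount P 0 = 1 := by
    rw [latticeCount]
    have : ∀ z : Fin d → ℤ, ((fun j => (z j : ℝ)) ∈ ((0 : ℕ) : ℝ) • P) ↔ z = 0 := by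
      intro z
      rw [Nat.cast_zero, Set.zero_smul_set hPne, Set.mem_zero]
      constructor
      · intro h
        funext j
        have := congrFun h j
        simpa using this
      · rintro rfl
        funext j; simp
    simp_rw [this]
    simp
  have hL1 : latticeCount P 1 = d + 1 := by
    have e := congrArg (PowerSeries.coeff 1) hh'
    have ha : Finset.HasAntidiagonal.antidiagonal (1 : ℕ) = {(0, 1), (1, 0)} := by rfl
    obtain ⟨c1, c0⟩ := coeff_one_pow (d + 1)
    rw [PowerSeries.coeff_mul, ha, Finset.sum_pair (by simp), c0, c1, PowerSeries.coeff_mk,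
      PowerSeries.coeff_mk, hL0] at e
    have e2 : (a : PowerSeries ℤ) = PowerSeries.C (a : ℤ) := by simp
    have e3 : (b : PowerSeries ℤ) = PowerSeries.C (b : ℤ) := by simp
    rw [map_add, map_add, e2, e3, PowerSeries.coeff_C_mul, PowerSeries.coeff_C_mul,
      PowerSeries.coeff_one, PowerSeries.coeff_X_pow, PowerSeries.coeff_X_pow,
      if_neg (by omega), if_neg (by omega), if_neg (by omega)] at e
    push_cast at e
    omega
  have hScard : S.card ≤ d + 1 := by
    rw [← hL1, latticeCount]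
    have hfin : Finite {z : Fin d → ℤ // (fun j => (z j : ℝ)) ∈ ((1 : ℕ) : ℝ) • P} := by
      refine Nat.finite_of_card_ne_zero ?_
      have : Nat.card {z : Fin d → ℤ // (fun j => (z j : ℝ)) ∈ ((1 : ℕ) : ℝ) • P} = d + 1 := hL1
      omega
    rw [← Fintype.card_coe, ← Nat.card_eq_fintype_card]
    refine Nat.card_le_card_of_injective (fun s : S => ⟨s.1, ?_⟩) ?_
    · rw [Nat.cast_one, one_smul, hS]
      exact subset_convexHull ℝ _ ⟨s.1, s.2, rfl⟩
    · intro s t h
      exact Subtype.ext (congrArg (fun q => q.1) h)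
  have : Nonempty S := ⟨⟨hSne.choose, hSne.choose_spec⟩⟩
  set v : S → (Fin d → ℤ) := fun s => s.1 with hv
  set w : S → (Fin d → ℝ) := fun s => fun j => ((v s j : ℤ) : ℝ) with hw
  have hrange : (fun z : Fin d → ℤ => fun j => (z j : ℝ)) '' S = Set.range w := by
    ext x
    constructor
    · rintro ⟨z, hz, rfl⟩; exact ⟨⟨z, hz⟩, rfl⟩
    · rintro ⟨s, rfl⟩; exact ⟨s.1, s.2, rfl⟩
  rw [hrange] at hS
  have hspan2 : vectorSpan ℝ (Set.range w) = ⊤ := by
    rw [hS, affineSpan_convexHull] at hspan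
    rw [← direction_affineSpan, hspan, AffineSubspace.direction_top]
  have hSge : d + 1 ≤ S.card := by
    obtain ⟨n, hn⟩ : ∃ n, S.card = n + 1 := ⟨S.card - 1, by have := hSne.card_pos; omega⟩
    have := finrank_vectorSpan_range_le ℝ w (n := n) (by rw [Fintype.card_coe]; exact hn)
    rw [hspan2, finrank_top, Module.finrank_fin_fun] at this
    omega
  have hSeq : Fintype.card S = d + 1 := by rw [Fintype.card_coe]; omega
  have hAI : AffineIndependent ℝ w := by
    rw [affineIndependent_iff_le_finrank_vectorSpan ℝ w hSeq, hspan2, finrank_top,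
      Module.finrank_fin_fun]
  have hind : Indep v := by
    intro l hl0 hlt
    have := (affineIndependent_iff.1 hAI) Finset.univ l hl0 (by
      have e : ∑ e ∈ Finset.univ, l e • w e = tau v l := by
        funext j
        simp [tau, hw]
      rw [e, hlt])
    funext i
    exact this i (Finset.mem_univ i)
  have hfinal := simplex_bound hind P (fun m x => by rw [hS]; exact mem_smul_hull v m x) k a b hk hb
    (by rw [hSeq]; exact hh')
  nlinarith

end Pool.Agent.Results.MP_362855_co.VolumeBound
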